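import Pool.Agent.RM69.Outer
import Pool.Agent.RM69.Menger

/-!
# Countable unions of subspaces with `ind ≤ 0`: local to global, and layers along a well-order
-/

set_option autoImplicit false

namespace Pool.Agent.OM55

open Set Topology Metric
open Pool.Agent.RM69

universe u v

variable {T : Type u} [MetricSpace T]

/-- Well-ordered layers: if every point of `Y` lies in one of the open sets `O i` and every
`O i ∩ Y` is a countable union of subspaces with `ind ≤ 0`, then so is `Y`. -/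
theorem sigmaZero_of_cover {I : Type v} [LinearOrder I] [WellFoundedLT I] {Y : Set T}
    (O : I → Set T) (hO : ∀ i, IsOpen (O i)) (hY : Y ⊆ ⋃ i, O i)
    (hS : ∀ i, SigmaZero (O i ∩ Y)) : SigmaZero Y := by
  choose Z hZ hZ0 using hS
  -- the layers
  let L : I → ℕ → Set T := fun i n =>
    {x | x ∈ Y ∧ (∀ j < i, x ∉ O j) ∧ ball x (1 / ((n : ℝ) + 1)) ⊆ O i}
  have hsep : ∀ n : ℕ, ∀ i j, i ≠ j → ∀ x ∈ L i n, ∀ y ∈ L j n,
      1 / ((n : ℝ) + 1) ≤ dist x y := by
    intro n i j hij x hx y hy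
    by_contra hlt
    rw [not_le] at hlt
    rcases lt_or_gt_of_ne hij with h | h
    · exact hy.2.1 i h (hx.2.2 (by rw [mem_ball, dist_comm]; exact hlt))
    · exact hx.2.1 j h (hy.2.2 (by rw [mem_ball]; exact hlt))
  have h0 : ∀ n k : ℕ, IndZero (⋃ i, L i n ∩ Z i k) := by
    intro n k
    refine indZero_separated (δ := 1 / ((n : ℝ) + 1)) (by positivity)
      (fun i => (hZ0 i k).mono inter_subset_right) ?_
    intro i j hij x hx y hy
    exact hsep n i j hij x hx.1 y hy.1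
  have h1 : SigmaZero (⋃ p : ℕ × ℕ, ⋃ i, L i p.1 ∩ Z i p.2) :=
    SigmaZero.iUnion fun p => SigmaZero.of_indZero (h0 p.1 p.2)
  refine h1.mono ?_
  intro x hx
  have hne : {i | x ∈ O i}.Nonempty := by
    obtain ⟨i, hi⟩ := mem_iUnion.1 (hY hx)
    exact ⟨i, hi⟩
  set i := WellFounded.min (wellFounded_lt (α := I)) {i | x ∈ O i} hne with hi
  have him : x ∈ O i := WellFounded.min_mem (wellFounded_lt (α := I)) _ hne
  have hlt : ∀ j < i, x ∉ O j := fun j hj hxj =>
    WellFounded.not_lt_min (wellFounded_lt (α := I)) {i | x ∈ O i} hxj hj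
  obtain ⟨δ, hδ, hδO⟩ := Metric.isOpen_iff.1 (hO i) x him
  obtain ⟨n, hn⟩ := exists_nat_one_div_lt hδ
  have hxZ : x ∈ ⋃ k, Z i k := by
    rw [hZ]
    exact ⟨him, hx⟩
  obtain ⟨k, hk⟩ := mem_iUnion.1 hxZ
  exact mem_iUnion.2 ⟨(n, k), mem_iUnion.2 ⟨i, ⟨hx, hlt, (ball_subset_ball hn.le).trans hδO⟩, hk⟩⟩

/-- **Local to global**: a subset of a metric space which is locally a countable union of subspaces
with `ind ≤ 0` is such a union. -/
theorem sigmaZero_of_local {Y : Set T}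
    (h : ∀ x ∈ Y, ∃ O, IsOpen O ∧ x ∈ O ∧ SigmaZero (O ∩ Y)) : SigmaZero Y := by
  choose! O h1 h2 h3 using h
  obtain ⟨hl, hw⟩ := exists_wellFoundedLT Y
  refine sigmaZero_of_cover (fun x : Y => O x) (fun x => h1 x x.2) ?_ (fun x => h3 x x.2)
  intro x hx
  exact mem_iUnion.2 ⟨⟨x, hx⟩, h2 x hx⟩

/-- The points which lie in a bad set of a stage not later than their own stage. -/
theorem sigmaZero_layers {I : Type v} [LinearOrder I] [WellFoundedLT I]
    (hI : ∀ i : I, (Iic i).Countable) (W : I → ℕ → Set T) (hW : ∀ i m, IsOpen (W i m))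
    (B : I → ℕ → Set T) (hB : ∀ i m, SigmaZero (B i m)) :
    SigmaZero {x | ∃ i, x ∈ (⋃ m, W i m) ∧ (∀ j < i, x ∉ ⋃ m, W j m) ∧
      ∃ j ≤ i, ∃ m, x ∈ B j m} := by
  refine sigmaZero_of_cover (fun i => ⋃ j ∈ Iic i, ⋃ m, W j m)
    (fun i => isOpen_biUnion fun j _ => isOpen_iUnion fun m => hW j m) ?_ ?_
  · rintro x ⟨i, hi, -⟩
    exact mem_iUnion.2 ⟨i, mem_biUnion (mem_Iic.2 le_rfl) hi⟩
  · intro i
    have hc : Countable (Iic i) := hI i
    have h1 : SigmaZero (⋃ p : Iic i × ℕ, B p.1 p.2) := SigmaZero.iUnion fun p => hB _ _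
    refine h1.mono ?_
    rintro x ⟨hx1, i', hx2, hx3, j, hj, m, hm⟩
    obtain ⟨j', hj', hxj'⟩ := mem_iUnion₂.1 hx1
    have hle : i' ≤ j' := by
      by_contra hlt
      exact hx3 j' (not_le.1 hlt) hxj'
    exact mem_iUnion.2 ⟨(⟨j, hj.trans (hle.trans hj')⟩, m), hm⟩

end Pool.Agent.OM55
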