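import Pool.Agent.OM55.Transfer

/-!
# The main step: metric spaces of weight at most aleph one
-/

set_option autoImplicit false

namespace Pool.Agent.OM55

open Set Topology Metric Cardinal
open Pool.Agent.RM69

universe u v

variable {T : Type u} [MetricSpace T]

/-- The selection for one Menger set: an open set whose frontier meets `E` only in a Menger set of
clean points can be enlarged slightly so that its frontier misses `E`. -/
theorem select_one {E V B : Set T} (hV : IsOpen V) (hBV : B ⊆ closure V) (hM : IsMenger B)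
    (hc : ∀ z ∈ B, Cln E z) (hE : frontier V ∩ E ⊆ B) {x : T} {ρ ε : ℝ} (hx : V ⊆ ball x ρ)
    (hε : 0 < ε) :
    ∃ V' : Set T, IsOpen V' ∧ V ⊆ V' ∧ V' ⊆ ball x (ρ + ε) ∧ frontier V' ∩ E = ∅ := by
  classical
  let η : ℕ → ℝ := fun i => min ε (1 / ((i : ℝ) + 1))
  have hη : ∀ i, 0 < η i := fun i => by positivity
  obtain ⟨𝒱, h1, h2⟩ := hM
    (fun i => {W | IsOpen W ∧ frontier W ∩ E = ∅ ∧ ∃ z ∈ B, W ⊆ ball z (η i)})
    (fun i W hW => hW.1) (by
      intro i z hz
      obtain ⟨W, h1, h2, h3, h4⟩ := hc z hz (η i) (hη i)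
      exact ⟨W, ⟨h1, h4, z, hz, h3⟩, h2⟩)
  let 𝒲 : Set (Set T) := ⋃ i, 𝒱 i
  have hW : ∀ W ∈ 𝒲, IsOpen W ∧ frontier W ∩ E = ∅ := by
    intro W hW
    obtain ⟨i, hi⟩ := mem_iUnion.1 hW
    exact ⟨((h1 i).1 hi).1, ((h1 i).1 hi).2.1⟩
  have hclV : closure V ⊆ closedBall x ρ := (closure_mono hx).trans closure_ball_subset_closedBall
  have hopen : IsOpen (V ∪ ⋃₀ 𝒲) := hV.union (isOpen_sUnion fun W h => (hW W h).1)
  refine ⟨V ∪ ⋃₀ 𝒲, hopen, subset_union_left, ?_, ?_⟩
  · rintro y (hy | ⟨W, hWm, hyW⟩)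
    · have := hx hy
      rw [mem_ball] at this ⊢
      linarith
    · obtain ⟨i, hi⟩ := mem_iUnion.1 hWm
      obtain ⟨-, -, z, hzB, hWz⟩ := (h1 i).1 hi
      have h3 := hclV (hBV hzB)
      have h4 := hWz hyW
      rw [mem_closedBall] at h3
      rw [mem_ball] at h4 ⊢
      have h5 : η i ≤ ε := min_le_left _ _
      calc dist y x ≤ dist y z + dist z x := dist_triangle _ _ _
        _ < η i + ρ := add_lt_add_of_lt_of_le h4 h3
        _ ≤ ρ + ε := by linarith
  · rw [eq_empty_iff_forall_notMem]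
    rintro v ⟨hv, hvE⟩
    rw [hopen.frontier_eq] at hv
    obtain ⟨hvc, hvn⟩ := hv
    by_cases hvV : v ∈ closure V
    · have hvf : v ∈ frontier V := by
        rw [hV.frontier_eq]
        exact ⟨hvV, fun h => hvn (Or.inl h)⟩
      obtain ⟨i, W, hWi, hvW⟩ := mem_iUnion.1 (h2 (hE ⟨hvf, hvE⟩))
      exact hvn (Or.inr ⟨W, mem_iUnion.2 ⟨i, hWi⟩, hvW⟩)
    · obtain ⟨δ, hδ, hδV⟩ := Metric.isOpen_iff.1 isClosed_closure.isOpen_compl v hvV
      set τ : ℝ := δ / 2 with hτ
      have hτ0 : 0 < τ := by positivity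
      have hfin : {W ∈ 𝒲 | (W ∩ ball v τ).Nonempty}.Finite := by
        obtain ⟨N, hN⟩ := exists_nat_gt (1 / τ)
        have hsub : {W ∈ 𝒲 | (W ∩ ball v τ).Nonempty} ⊆ ⋃ i ∈ Finset.range N, 𝒱 i := by
          rintro W ⟨hWm, y, hyW, hyv⟩
          obtain ⟨i, hi⟩ := mem_iUnion.1 hWm
          obtain ⟨-, -, z, hzB, hWz⟩ := (h1 i).1 hi
          have h4 := hWz hyW
          rw [mem_ball] at hyv h4
          have h5 : δ ≤ dist v z := by
            by_contra hlt
            rw [not_le] at hlt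
            exact hδV (show z ∈ ball v δ by rw [mem_ball, dist_comm]; exact hlt) (hBV hzB)
          have h6 : dist v z ≤ dist v y + dist y z := dist_triangle _ _ _
          rw [dist_comm v y] at h6
          have h7 : η i ≤ 1 / ((i : ℝ) + 1) := min_le_right _ _
          have h8 : τ < 1 / ((i : ℝ) + 1) := by linarith
          have h9 : (i : ℝ) + 1 < N := by
            have h10 : (i : ℝ) + 1 < 1 / τ := by
              rw [lt_div_iff₀ (by positivity)] at h8 ⊢
              linarith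
            exact h10.trans hN
          have hi' : i < N := by
            have h6 : (i : ℝ) < N := by linarith
            exact_mod_cast h6
          simp only [mem_iUnion, Finset.mem_range]
          exact ⟨i, hi', hi⟩
        refine Finite.subset ?_ hsub
        exact (Finset.finite_toSet _).biUnion fun i _ => (h1 i).2
      have hvcl : v ∈ closure (⋃₀ {W ∈ 𝒲 | (W ∩ ball v τ).Nonempty}) := by
        rw [_root_.mem_closure_iff]
        intro O hO hvO
        obtain ⟨y, ⟨hyO, hyv⟩, hy⟩ := _root_.mem_closure_iff.1 hvc (O ∩ ball v τ)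
          (hO.inter isOpen_ball) ⟨hvO, mem_ball_self hτ0⟩
        rcases hy with hy | ⟨W, hWm, hyW⟩
        · exact absurd (subset_closure hy) (hδV (by
            rw [mem_ball] at hyv ⊢
            linarith))
        · exact ⟨y, hyO, W, ⟨hWm, y, hyW, hyv⟩, hyW⟩
      rw [hfin.closure_sUnion] at hvcl
      obtain ⟨W, ⟨hWm, -⟩, hvW⟩ := mem_iUnion₂.1 hvcl
      have h3 : v ∈ frontier W := by
        rw [(hW W hWm).1.frontier_eq]
        exact ⟨hvW, fun h => hvn (Or.inr ⟨W, hWm, h⟩)⟩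
      have h4 : v ∈ frontier W ∩ E := ⟨h3, hvE⟩
      rw [(hW W hWm).2] at h4
      exact h4

/-- A base of open sets with good frontiers, indexed by centres and inner and outer radii. -/
theorem exists_base {G : Set T → Prop} (hG : G ∅)
    (h : ∀ x : T, ∀ U : Set T, IsOpen U → x ∈ U →
      ∃ V, IsOpen V ∧ x ∈ V ∧ V ⊆ U ∧ G (frontier V)) :
    ∃ W : T → ℕ → ℕ → Set T, (∀ c m n, IsOpen (W c m n)) ∧
      (∀ c m n, W c m n ⊆ ball c (1 / ((n : ℝ) + 1))) ∧ (∀ c m n, G (frontier (W c m n))) ∧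
      ∀ (x : T) (n : ℕ), ∃ m : ℕ, ∀ c, dist c x < 1 / ((m : ℝ) + 1) → x ∈ W c m n := by
  classical
  have hW : ∀ (c : T) (m n : ℕ), ∃ V : Set T, IsOpen V ∧ V ⊆ ball c (1 / ((n : ℝ) + 1)) ∧
      G (frontier V) ∧ ((∃ V', IsOpen V' ∧ V' ⊆ ball c (1 / ((n : ℝ) + 1)) ∧ G (frontier V') ∧
        ball c (1 / ((m : ℝ) + 1)) ⊆ V') → ball c (1 / ((m : ℝ) + 1)) ⊆ V) := by
    intro c m n
    by_cases hf : ∃ V', IsOpen V' ∧ V' ⊆ ball c (1 / ((n : ℝ) + 1)) ∧ G (frontier V') ∧
        ball c (1 / ((m : ℝ) + 1)) ⊆ V'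
    · obtain ⟨V, h1, h2, h3, h4⟩ := hf
      exact ⟨V, h1, h2, h3, fun _ => h4⟩
    · exact ⟨∅, isOpen_empty, empty_subset _, by rw [frontier_empty]; exact hG,
        fun h' => absurd h' hf⟩
  choose W h1 h2 h3 h4 using hW
  refine ⟨W, h1, h2, h3, ?_⟩
  intro x n
  have hn : (0 : ℝ) < 1 / (2 * ((n : ℝ) + 1)) := by positivity
  obtain ⟨V, hV, hxV, hVU, hfr⟩ := h x (ball x (1 / (2 * ((n : ℝ) + 1)))) isOpen_ball
    (mem_ball_self hn)
  obtain ⟨δ, hδ, hδV⟩ := Metric.isOpen_iff.1 hV x hxV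
  obtain ⟨m, hm⟩ := exists_nat_one_div_lt (show (0 : ℝ) < min (δ / 2) (1 / (2 * ((n : ℝ) + 1))) by
    positivity)
  have hm1 : 1 / ((m : ℝ) + 1) < δ / 2 := hm.trans_le (min_le_left _ _)
  have hm2 : 1 / ((m : ℝ) + 1) < 1 / (2 * ((n : ℝ) + 1)) := hm.trans_le (min_le_right _ _)
  refine ⟨m, fun c hc => ?_⟩
  refine h4 c m n ⟨V, hV, ?_, hfr, ?_⟩ (by rw [mem_ball, dist_comm]; exact hc)
  · intro y hy
    have h5 := hVU hy
    rw [mem_ball] at h5 ⊢
    have h6 : 1 / ((n : ℝ) + 1) = 1 / (2 * ((n : ℝ) + 1)) + 1 / (2 * ((n : ℝ) + 1)) := by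
      field_simp
      norm_num
    calc dist y c ≤ dist y x + dist x c := dist_triangle _ _ _
      _ < 1 / (2 * ((n : ℝ) + 1)) + 1 / (2 * ((n : ℝ) + 1)) := by
          rw [dist_comm x c]
          exact add_lt_add h5 (hc.trans hm2)
      _ = _ := h6.symm
  · intro y hy
    apply hδV
    rw [mem_ball] at hy ⊢
    calc dist y x ≤ dist y c + dist c x := dist_triangle _ _ _
      _ < 1 / ((m : ℝ) + 1) + 1 / ((m : ℝ) + 1) := add_lt_add hy hc
      _ ≤ δ := by linarith

variable (T) in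
/-- Every point has arbitrarily small open neighbourhoods whose boundaries are countable unions of
subspaces with `ind ≤ 0` and have all their closed separable subsets Menger. -/
def RimL : Prop :=
  ∀ x : T, ∀ U : Set T, IsOpen U → x ∈ U →
    ∃ V, IsOpen V ∧ x ∈ V ∧ V ⊆ U ∧ SigmaZero (frontier V) ∧ SepMenger (frontier V)

/-- **The main step.** -/
theorem sigmaZero_closure_range (hT : RimL T) {I : Type v} [LinearOrder I] [WellFoundedLT I]
    (hI : ∀ i : I, (Iic i).Countable) (a : I → T) : SigmaZero (closure (range a)) := by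
  obtain ⟨W, hWo, hWb, hWG, hbase⟩ := exists_base (T := T)
    (G := fun F => SigmaZero F ∧ SepMenger F) ⟨sigmaZero_empty, sepMenger_empty⟩ hT
  -- the points in a boundary of a stage not later than their own stage
  let P : ℕ → Set T := fun n => {x | ∃ i, x ∈ (⋃ m, W (a i) m n) ∧
    (∀ j < i, x ∉ ⋃ m, W (a j) m n) ∧ ∃ j ≤ i, ∃ m, x ∈ ⋃ k, frontier (W (a j) m k)}
  have hP : ∀ n, SigmaZero (P n) := fun n =>
    sigmaZero_layers hI (fun i m => W (a i) m n) (fun i m => hWo _ _ _)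
      (fun j m => ⋃ k, frontier (W (a j) m k)) fun j m => SigmaZero.iUnion fun k => (hWG _ _ _).1
  let E : Set T := closure (range a) \ ⋃ n, P n
  -- the remaining points of a boundary are old
  have hold : ∀ (j : I) (m k : ℕ) (y : T), y ∈ frontier (W (a j) m k) → y ∈ E →
      y ∈ closure (a '' Iio j) := by
    intro j m k y hy hyE
    rw [Metric.mem_closure_iff]
    intro ε hε
    obtain ⟨n, hn⟩ := exists_nat_one_div_lt hε
    have hne : {i | y ∈ ⋃ m, W (a i) m n}.Nonempty := by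
      obtain ⟨m', hm'⟩ := hbase y n
      obtain ⟨_, ⟨i, rfl⟩, hi⟩ := Metric.mem_closure_iff.1 hyE.1 (1 / ((m' : ℝ) + 1))
        (by positivity)
      exact ⟨i, mem_iUnion.2 ⟨m', hm' _ (by rw [dist_comm]; exact hi)⟩⟩
    set i := WellFounded.min (wellFounded_lt (α := I)) {i | y ∈ ⋃ m, W (a i) m n} hne with hi
    have him : y ∈ ⋃ m, W (a i) m n := WellFounded.min_mem (wellFounded_lt (α := I)) _ hne
    have hlt : ∀ j < i, y ∉ ⋃ m, W (a j) m n := fun j hj hxj =>
      WellFounded.not_lt_min (wellFounded_lt (α := I)) {i | y ∈ ⋃ m, W (a i) m n} hxj hj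
    have hij : i < j := by
      by_contra hle
      rw [not_lt] at hle
      exact hyE.2 (mem_iUnion.2 ⟨n, i, him, hlt, j, hle, m, mem_iUnion.2 ⟨k, hy⟩⟩)
    obtain ⟨m', hm'⟩ := mem_iUnion.1 him
    refine ⟨a i, ⟨i, hij, rfl⟩, ?_⟩
    have h1 := hWb _ _ _ hm'
    rw [mem_ball] at h1
    exact h1.trans hn
  -- the points are clean
  have step : ∀ S : Set I, (∀ j ∈ S, ∀ z ∈ closure (a '' Iio j), Cln E z) →
      ∀ z ∈ closure (a '' S), Cln E z := by
    intro S hS z hz ε hε
    obtain ⟨n, hn⟩ := exists_nat_one_div_lt (show (0 : ℝ) < ε / 4 by positivity)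
    obtain ⟨m, hm⟩ := hbase z n
    obtain ⟨_, ⟨j, hj, rfl⟩, hzj⟩ := Metric.mem_closure_iff.1 hz (1 / ((m : ℝ) + 1))
      (by positivity)
    have hzW : z ∈ W (a j) m n := hm _ (by rw [dist_comm]; exact hzj)
    have hWz : W (a j) m n ⊆ ball z (ε / 2) := by
      intro y hy
      have h1 := hWb _ _ _ hy
      have h2 := hWb _ _ _ hzW
      rw [mem_ball] at h1 h2 ⊢
      calc dist y z ≤ dist y (a j) + dist z (a j) := by
            rw [dist_comm z (a j)]
            exact dist_triangle _ _ _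
        _ < 1 / ((n : ℝ) + 1) + 1 / ((n : ℝ) + 1) := add_lt_add h1 h2
        _ ≤ ε / 2 := by linarith
    have hcount : (a '' Iio j).Countable := ((hI j).mono Iio_subset_Iic_self).image a
    have hB : IsMenger (frontier (W (a j) m n) ∩ closure (a '' Iio j)) := by
      refine (hWG (a j) m n).2 _ inter_subset_left (isClosed_frontier.inter isClosed_closure) ?_
      exact hcount.isSeparable.closure.mono inter_subset_right
    obtain ⟨V', h1, h2, h3, h4⟩ := select_one (E := E) (hWo (a j) m n)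
      (inter_subset_left.trans frontier_subset_closure) hB (fun z' hz' => hS j hj z' hz'.2)
      (fun y hy => ⟨hy.1, hold j m n y hy.1 hy.2⟩) hWz (show (0 : ℝ) < ε / 2 by positivity)
    exact ⟨V', h1, h2 hzW, h3.trans (ball_subset_ball (by linarith)), h4⟩
  have hclean1 : ∀ j : I, ∀ z ∈ closure (a '' Iio j), Cln E z := by
    intro j
    induction j using WellFoundedLT.induction with
    | ind j ih => exact step (Iio j) fun j' hj' => ih j' hj'
  have hclean : ∀ z ∈ closure (range a), Cln E z := by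
    rw [← image_univ]
    exact step univ fun j _ => hclean1 j
  have hE : IndZero E := by
    intro x hx U hU hxU
    obtain ⟨ε, hε, hεU⟩ := Metric.isOpen_iff.1 hU x hxU
    obtain ⟨V, h1, h2, h3, h4⟩ := hclean x hx.1 ε hε
    refine ⟨V, h1, h2, inter_subset_left.trans (h3.trans hεU), ?_⟩
    rintro y ⟨hy1, hy2⟩
    by_contra hyV
    have h5 : y ∈ frontier V ∩ E := by
      refine ⟨?_, hy2⟩
      rw [h1.frontier_eq]
      exact ⟨closure_mono inter_subset_left hy1, hyV⟩
    rw [h4] at h5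
    exact h5
  refine ((SigmaZero.of_indZero hE).union (SigmaZero.iUnion hP)).mono ?_
  intro x hx
  by_cases hxP : x ∈ ⋃ n, P n
  · exact Or.inr hxP
  · exact Or.inl ⟨hx, hxP⟩

end Pool.Agent.OM55
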