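import Pool.Agent.OM55.Main

/-!
# Spaces with small transfinite dimension, locally of weight at most aleph one
-/

set_option autoImplicit false

namespace Pool.Agent.OM55

open Set Topology Metric Cardinal
open Pool.Agent.RM69

universe u v

variable (T : Type u) [MetricSpace T]

/-- Every point has arbitrarily small open neighbourhoods in whose boundaries all closed separable
subsets are Menger. -/
def RimSM : Prop :=
  ∀ x : T, ∀ U : Set T, IsOpen U → x ∈ U →
    ∃ V, IsOpen V ∧ x ∈ V ∧ V ⊆ U ∧ SepMenger (frontier V)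

/-- Locally of weight at most `aleph_1`. -/
def LocAlephOne : Prop :=
  ∀ x : T, ∃ O : Set T, IsOpen O ∧ x ∈ O ∧ ∃ D : Set T, #D ≤ ℵ₁ ∧ O ⊆ closure D

variable {T}

theorem sigmaZero_closure (hT : RimL T) {D : Set T} (hD : #D ≤ ℵ₁) : SigmaZero (closure D) := by
  obtain ⟨I, h1, h2, a, h3, h4⟩ := exists_enumeration hD
  rw [← h4]
  exact sigmaZero_closure_range hT h3 a

theorem sigmaZero_of_rimL (hT : RimL T) (hloc : LocAlephOne T) : SigmaZero (univ : Set T) := by
  refine sigmaZero_of_local fun x _ => ?_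
  obtain ⟨O, hO, hxO, D, hD, hOD⟩ := hloc x
  exact ⟨O, hO, hxO, (sigmaZero_closure hT hD).mono (inter_subset_left.trans hOD)⟩

/-- Spaces of weight at most `aleph_1` all of whose closed separable subsets are Menger. -/
theorem sigmaZero_of_sepMenger (hsm : SepMenger (univ : Set T)) {α : Ordinal.{v}}
    (htr : TrindLe (univ : Set T) α) {D : Set T} (hD : #D ≤ ℵ₁) (hDd : Dense D) :
    SigmaZero (univ : Set T) := by
  refine htr (fun A _ => IsClosed A → SigmaZero A) ?_ isClosed_univ
  intro A α' hA hAc
  obtain ⟨D', hD', hDd'⟩ := exists_dense_subtype (M := A) hD (by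
    rw [hDd.closure_eq]
    exact subset_univ A)
  have hrim : RimL A := by
    intro x U hU hxU
    obtain ⟨U₀, hU₀, rfl⟩ := isOpen_induced_iff.1 hU
    obtain ⟨V, hV, hxV, h1, h2⟩ := hA x x.2 U₀ hU₀ hxU
    have hcl : IsClosed ((closure (V ∩ A) ∩ A) \ V) :=
      (isClosed_closure.inter hAc).sdiff hV
    have hfr : frontier (Subtype.val ⁻¹' V : Set A) ⊆
        Subtype.val ⁻¹' ((closure (V ∩ A) ∩ A) \ V) := by
      intro y hy
      rw [(hV.preimage continuous_subtype_val).frontier_eq] at hy
      refine ⟨⟨?_, y.2⟩, hy.2⟩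
      have hy1 := hy.1
      rw [closure_subtype] at hy1
      refine closure_mono ?_ hy1
      rintro _ ⟨z, hz, rfl⟩
      exact ⟨hz, z.2⟩
    refine ⟨Subtype.val ⁻¹' V, hV.preimage continuous_subtype_val, hxV, ?_, ?_, ?_⟩
    · intro y hy
      exact h1 ⟨hy, y.2⟩
    · rcases h2 with h2 | ⟨β, -, h2⟩
      · rw [h2, preimage_empty] at hfr
        exact sigmaZero_empty.mono hfr
      · exact (h2 hcl).preimage_val.mono hfr
    · exact ((hsm.preimage_val hAc).mono (by rw [preimage_univ]; exact subset_univ _))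
  have h3 := sigmaZero_closure hrim hD'
  rw [hDd'.closure_eq] at h3
  have h4 := h3.image_val
  rw [image_univ, Subtype.range_coe] at h4
  exact h4

/-- Spaces locally of weight at most `aleph_1` with a base of open sets in whose boundaries all
closed separable subsets are Menger. -/
theorem sigmaZero_of_rimSM (hT : RimSM T) (hloc : LocAlephOne T) {α : Ordinal.{v}}
    (htr : TrindLe (univ : Set T) α) : SigmaZero (univ : Set T) := by
  refine sigmaZero_of_rimL ?_ hloc
  intro x U hU hxU
  obtain ⟨O, hO, hxO, D, hD, hOD⟩ := hloc x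
  obtain ⟨δ, hδ, hδO⟩ := Metric.isOpen_iff.1 hO x hxO
  obtain ⟨V, h1, h2, h3, h4⟩ := hT x (U ∩ ball x (δ / 2)) (hU.inter isOpen_ball)
    ⟨hxU, mem_ball_self (by positivity)⟩
  refine ⟨V, h1, h2, h3.trans inter_subset_left, ?_, h4⟩
  have hfD : frontier V ⊆ closure D := by
    refine (frontier_subset_closure.trans ?_).trans hOD
    intro y hy
    have h5 : y ∈ closedBall x (δ / 2) :=
      closure_ball_subset_closedBall (closure_mono (h3.trans inter_subset_right) hy)
    rw [mem_closedBall] at h5
    exact hδO (by rw [mem_ball]; linarith)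
  obtain ⟨D', hD', hDd'⟩ := exists_dense_subtype (M := frontier V) hD hfD
  have h5 := sigmaZero_of_sepMenger (h4.univ_of_isClosed isClosed_frontier)
    (htr.subtype (frontier V)) hD' hDd'
  have h6 := h5.image_val
  rw [image_univ, Subtype.range_coe] at h6
  exact h6

variable (T) in
/-- Every point has arbitrarily small open neighbourhoods whose boundaries are countable unions of
subspaces with `ind ≤ 0`. -/
def RimS : Prop :=
  ∀ x : T, ∀ U : Set T, IsOpen U → x ∈ U →
    ∃ V, IsOpen V ∧ x ∈ V ∧ V ⊆ U ∧ SigmaZero (frontier V)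

theorem frontier_preimage_val_subset {X : Type u} [TopologicalSpace X] {M V : Set X}
    (hV : IsOpen V) : frontier (Subtype.val ⁻¹' V : Set M) ⊆ Subtype.val ⁻¹' frontier V := by
  intro y hy
  rw [(hV.preimage continuous_subtype_val).frontier_eq] at hy
  rw [mem_preimage, hV.frontier_eq]
  refine ⟨?_, hy.2⟩
  have hy1 := hy.1
  rw [closure_subtype] at hy1
  refine closure_mono ?_ hy1
  rintro _ ⟨z, hz, rfl⟩
  exact hz

theorem RimS.subtype (h : RimS T) (M : Set T) : RimS M := by
  intro x U hU hxU
  obtain ⟨U₀, hU₀, rfl⟩ := isOpen_induced_iff.1 hU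
  obtain ⟨V, hV, hxV, h1, h2⟩ := h x U₀ hU₀ hxU
  exact ⟨Subtype.val ⁻¹' V, hV.preimage continuous_subtype_val, hxV, preimage_mono h1,
    h2.preimage_val.mono (frontier_preimage_val_subset hV)⟩

/-- Boundaries which are countable unions of subspaces with `ind ≤ 0`, and (other) boundaries in
which all closed separable subsets are Menger. -/
theorem sigmaZero_of_rimS (hT : RimSM T) (hS : RimS T) (hloc : LocAlephOne T) :
    SigmaZero (univ : Set T) := by
  refine sigmaZero_of_rimL ?_ hloc
  intro x U hU hxU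
  obtain ⟨O, hO, hxO, D, hD, hOD⟩ := hloc x
  obtain ⟨δ, hδ, hδO⟩ := Metric.isOpen_iff.1 hO x hxO
  obtain ⟨V, h1, h2, h3, h4⟩ := hT x (U ∩ ball x (δ / 2)) (hU.inter isOpen_ball)
    ⟨hxU, mem_ball_self (by positivity)⟩
  refine ⟨V, h1, h2, h3.trans inter_subset_left, ?_, h4⟩
  have hfD : frontier V ⊆ closure D := by
    refine (frontier_subset_closure.trans ?_).trans hOD
    intro y hy
    have h5 : y ∈ closedBall x (δ / 2) :=
      closure_ball_subset_closedBall (closure_mono (h3.trans inter_subset_right) hy)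
    rw [mem_closedBall] at h5
    exact hδO (by rw [mem_ball]; linarith)
  obtain ⟨D', hD', hDd'⟩ := exists_dense_subtype (M := frontier V) hD hfD
  have hrim : RimL (frontier V) := by
    intro y U' hU' hyU'
    obtain ⟨V', g1, g2, g3, g4⟩ := hS.subtype (frontier V) y U' hU' hyU'
    exact ⟨V', g1, g2, g3, g4, (h4.univ_of_isClosed isClosed_frontier).mono (subset_univ _)⟩
  have h5 := sigmaZero_closure hrim hD'
  rw [hDd'.closure_eq] at h5
  have h6 := h5.image_val
  rw [image_univ, Subtype.range_coe] at h6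
  exact h6

/-- Countable unions, small transfinite dimension. -/
theorem sigmaZero_union_trind {X : Type u} [MetricSpace X] (M : ℕ → Set X)
    (hM : (⋃ i, M i) = Set.univ) (hloc : ∀ i, LocAlephOne (M i)) (hrim : ∀ i, RimSM (M i))
    {α : Ordinal.{v}} (htr : TrindLe (univ : Set X) α) : SigmaZero (univ : Set X) := by
  rw [← hM]
  refine SigmaZero.iUnion fun i => ?_
  have h1 := (sigmaZero_of_rimSM (hrim i) (hloc i) (htr.subtype (M i))).image_val
  rw [image_univ, Subtype.range_coe] at h1
  exact h1

/-- Countable unions, boundaries which are countable unions of subspaces with `ind ≤ 0`. -/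
theorem sigmaZero_union_rimS {X : Type u} [MetricSpace X] (M : ℕ → Set X)
    (hM : (⋃ i, M i) = Set.univ) (hloc : ∀ i, LocAlephOne (M i)) (hrim : ∀ i, RimSM (M i))
    (hS : RimS X) : SigmaZero (univ : Set X) := by
  rw [← hM]
  refine SigmaZero.iUnion fun i => ?_
  have h1 := (sigmaZero_of_rimS (hrim i) (hS.subtype (M i)) (hloc i)).image_val
  rw [image_univ, Subtype.range_coe] at h1
  exact h1

end Pool.Agent.OM55
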