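import Pool.Agent.OM55.SepSets
import Pool.Agent.RN69.RimSep

/-!
# The reduction of Q1 in weight aleph one
-/

set_option autoImplicit false

namespace Pool.Agent.OM55

open Set Topology Metric Cardinal
open Pool.Agent.RM69 Pool.Agent.RN69

universe u v

variable {T : Type u} [MetricSpace T]

/-- Subspaces of spaces locally of weight at most `aleph_1`. -/
theorem LocAlephOne.subtype (h : LocAlephOne T) (M : Set T) : LocAlephOne M := by
  intro x
  obtain ⟨O, hO, hxO, D, hD, hOD⟩ := h x
  obtain ⟨D', hD', hDd'⟩ := exists_dense_subtype (M := M ∩ O) hD (inter_subset_right.trans hOD)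
  refine ⟨Subtype.val ⁻¹' O, hO.preimage continuous_subtype_val, hxO,
    (fun y : ↥(M ∩ O) => (⟨y.1, y.2.1⟩ : M)) '' D', (Cardinal.mk_image_le).trans hD', ?_⟩
  intro y hy
  have h1 : (⟨y.1, y.2, hy⟩ : ↥(M ∩ O)) ∈ closure D' := hDd' _
  rw [Metric.mem_closure_iff] at h1 ⊢
  intro ε hε
  obtain ⟨z, hz, hd⟩ := h1 ε hε
  exact ⟨_, ⟨z, hz, rfl⟩, hd⟩

/-- If the small transfinite dimension of `X` exists, and `X` is locally of weight at most
`aleph_1`, then `X` is a countable union of subspaces with `ind ≤ 0` if and only if in every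
rim-separable subspace every closed separable set has arbitrarily small open neighbourhoods whose
boundaries are such unions. -/
theorem sigmaZero_iff_rimSep {X : Type u} [MetricSpace X] (hloc : LocAlephOne X) {α : Ordinal.{v}}
    (htr : TrindLe (Set.univ : Set X) α) :
    SigmaZero (Set.univ : Set X) ↔ ∀ Y : Set X, RimSep Y → SepSetS Y := by
  constructor
  · intro h Y _
    refine (sigmaZero_iff_sepSetS (hloc.subtype Y)).1 ?_
    have h1 := h.preimage_val (M := Y)
    rwa [preimage_univ] at h1
  · intro h
    refine sigmaZero_of_rimSep hloc htr fun Y hY => ?_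
    have h1 := ((sigmaZero_iff_sepSetS (hloc.subtype Y)).2 (h Y hY)).image_val
    rw [image_univ, Subtype.range_coe] at h1
    exact h1

end Pool.Agent.OM55
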