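import Pool.Agent.OM55.Outer

/-!
# Closed separable sets instead of points: a characterization in weight aleph one
-/

set_option autoImplicit false

namespace Pool.Agent.OM55

open Set Topology Metric Cardinal
open Pool.Agent.RM69

universe u v

variable {T : Type u} [MetricSpace T]

/-- The Lindelöf version of the selection: the closed separable set `C` has clean neighbourhoods
`O k` shrinking to it. -/
theorem select_lindelof {E V C : Set T} (hV : IsOpen V) (hCs : TopologicalSpace.IsSeparable C)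
    (hCc : IsClosed C) (hc : ∀ z ∈ C, Cln E z) (hE : frontier V ∩ E ⊆ C) {O : ℕ → Set T}
    (hO1 : ∀ k, IsOpen (O k)) (hO2 : ∀ k, C ⊆ O k)
    (hO3 : ∀ k : ℕ, O k ⊆ thickening (1 / ((k : ℝ) + 1)) C) (hO4 : ∀ k, frontier (O k) ∩ E = ∅)
    {x : T} {ρ ε : ℝ} (hx : V ⊆ ball x ρ) (hε : 0 < ε) :
    ∃ V' : Set T, IsOpen V' ∧ V ⊆ V' ∧ V' ⊆ ball x (ρ + ε) ∧ frontier V' ∩ E = ∅ := by
  classical
  rcases C.eq_empty_or_nonempty with hCe | hCne
  · refine ⟨V, hV, subset_rfl, hx.trans (ball_subset_ball (by linarith)), ?_⟩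
    rw [hCe] at hE
    exact subset_empty_iff.1 hE
  -- membership in the closure of a clean set
  have hcl : ∀ A : Set T, IsOpen A → frontier A ∩ E = ∅ → ∀ v ∈ E, v ∈ closure A → v ∈ A := by
    intro A hA hAE v hv hvA
    by_contra hn
    have h1 : v ∈ frontier A ∩ E := by
      refine ⟨?_, hv⟩
      rw [hA.frontier_eq]
      exact ⟨hvA, hn⟩
    rw [hAE] at h1
    exact h1
  -- the clean neighbourhoods
  have hex : ∀ z : C, ∃ A : Set T, IsOpen A ∧ (z : T) ∈ A ∧ A ⊆ ball (z : T) ε ∧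
      frontier A ∩ E = ∅ ∧ ((z : T) ∉ closure V → A ∩ V = ∅) := by
    intro z
    by_cases hz : (z : T) ∈ closure V
    · obtain ⟨A, h1, h2, h3, h4⟩ := hc z z.2 ε hε
      exact ⟨A, h1, h2, h3, h4, fun h => absurd hz h⟩
    · obtain ⟨δ, hδ, hδV⟩ := Metric.isOpen_iff.1 isClosed_closure.isOpen_compl (z : T) hz
      obtain ⟨A, h1, h2, h3, h4⟩ := hc z z.2 (min ε δ) (by positivity)
      refine ⟨A, h1, h2, h3.trans (ball_subset_ball (min_le_left _ _)), h4, fun _ => ?_⟩
      rw [eq_empty_iff_forall_notMem]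
      rintro y ⟨hyA, hyV⟩
      exact hδV (ball_subset_ball (min_le_right _ _) (h3 hyA)) (subset_closure hyV)
  choose A0 hA1 hA2 hA3 hA4 hA5 using hex
  have hsep : TopologicalSpace.SeparableSpace C := hCs.separableSpace
  have hsc : SecondCountableTopology C := UniformSpace.secondCountable_of_separable C
  obtain ⟨s, hs, hsU⟩ := TopologicalSpace.countable_cover_nhds
    (f := fun z : C => (Subtype.val ⁻¹' A0 z : Set C))
    (fun z => ((hA1 z).preimage continuous_subtype_val).mem_nhds (hA2 z))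
  have hsne : s.Nonempty := by
    obtain ⟨c, hc⟩ := hCne
    have : (⟨c, hc⟩ : C) ∈ ⋃ z ∈ s, (Subtype.val ⁻¹' A0 z : Set C) := by
      rw [hsU]
      exact mem_univ _
    obtain ⟨z, hz, -⟩ := mem_iUnion₂.1 this
    exact ⟨z, hz⟩
  obtain ⟨z, hz⟩ := hs.exists_eq_range hsne
  have hcov : ∀ v ∈ C, ∃ i, v ∈ A0 (z i) := by
    intro v hv
    have : (⟨v, hv⟩ : C) ∈ ⋃ z ∈ s, (Subtype.val ⁻¹' A0 z : Set C) := by
      rw [hsU]
      exact mem_univ _
    obtain ⟨z', hz', hvz'⟩ := mem_iUnion₂.1 this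
    rw [hz] at hz'
    obtain ⟨i, rfl⟩ := hz'
    exact ⟨i, hvz'⟩
  let A : ℕ → Set T := fun i => A0 (z i)
  let A' : ℕ → Set T := fun i => A i \ ⋃ l ∈ Iio i, closure (A l)
  let A'' : ℕ → Set T := fun i => A' i ∩ O i
  have hA'o : ∀ i, IsOpen (A' i) := fun i =>
    (hA1 (z i)).sdiff ((finite_Iio i).isClosed_biUnion fun l _ => isClosed_closure)
  have hA''o : ∀ i, IsOpen (A'' i) := fun i => (hA'o i).inter (hO1 i)
  have hA'' : ∀ i, ∀ v ∈ E, v ∈ closure (A'' i) → v ∈ A'' i := by
    intro i v hv hvc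
    have h1 : v ∈ A i := hcl _ (hA1 (z i)) (hA4 (z i)) v hv
      (closure_mono (fun y hy => hy.1.1) hvc)
    have h2 : v ∈ O i := hcl _ (hO1 i) (hO4 i) v hv (closure_mono (fun y hy => hy.2) hvc)
    refine ⟨⟨h1, fun h => ?_⟩, h2⟩
    obtain ⟨l, hl, hvl⟩ := mem_iUnion₂.1 h
    have h3 : v ∈ A l := hcl _ (hA1 (z l)) (hA4 (z l)) v hv hvl
    obtain ⟨y, hy1, hy2⟩ := _root_.mem_closure_iff.1 hvc (A l) (hA1 (z l)) h3
    exact hy2.1.2 (mem_iUnion₂.2 ⟨l, hl, subset_closure hy1⟩)
  let V' : Set T := V ∪ ⋃ i ∈ {i | (z i : T) ∈ closure V}, A'' i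
  have hV'o : IsOpen V' := hV.union (isOpen_biUnion fun i _ => hA''o i)
  have hclV : closure V ⊆ closedBall x ρ := (closure_mono hx).trans closure_ball_subset_closedBall
  refine ⟨V', hV'o, subset_union_left, ?_, ?_⟩
  · rintro y (hy | hy)
    · have := hx hy
      rw [mem_ball] at this ⊢
      linarith
    · obtain ⟨i, hi, hyi⟩ := mem_iUnion₂.1 hy
      have h3 := hclV hi
      have h4 := hA3 (z i) hyi.1.1
      rw [mem_closedBall] at h3
      rw [mem_ball] at h4 ⊢
      calc dist y x ≤ dist y (z i) + dist (z i : T) x := dist_triangle _ _ _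
        _ < ε + ρ := add_lt_add_of_lt_of_le h4 h3
        _ = ρ + ε := add_comm _ _
  · rw [eq_empty_iff_forall_notMem]
    rintro v ⟨hv, hvE⟩
    rw [hV'o.frontier_eq] at hv
    obtain ⟨hvc, hvn⟩ := hv
    -- `v` lies in none of the sets
    have hkey : ∀ i, v ∉ A'' i := by
      intro i hvA''
      by_cases hiJ : (z i : T) ∈ closure V
      · exact hvn (Or.inr (mem_iUnion₂.2 ⟨i, hiJ, hvA''⟩))
      · obtain ⟨y, hy1, hy2⟩ := _root_.mem_closure_iff.1 hvc (A'' i) (hA''o i) hvA''
        rcases hy2 with hyV | hyV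
        · have h1 : y ∈ A0 (z i) ∩ V := ⟨hy1.1.1, hyV⟩
          rw [hA5 (z i) hiJ] at h1
          exact h1
        · obtain ⟨l, hl, hyl⟩ := mem_iUnion₂.1 hyV
          have hne : l ≠ i := by
            rintro rfl
            exact hiJ hl
          rcases lt_or_gt_of_ne hne with h | h
          · exact hy1.1.2 (mem_iUnion₂.2 ⟨l, h, subset_closure hyl.1.1⟩)
          · exact hyl.1.2 (mem_iUnion₂.2 ⟨i, h, subset_closure hy1.1.1⟩)
    by_cases hvC : v ∈ C
    · -- the first set containing `v`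
      have hfind := hcov v hvC
      refine hkey (Nat.find hfind) ⟨⟨Nat.find_spec hfind, fun h => ?_⟩, hO2 _ hvC⟩
      obtain ⟨l, hl, hvl⟩ := mem_iUnion₂.1 h
      exact Nat.find_min hfind hl (hcl _ (hA1 (z l)) (hA4 (z l)) v hvE hvl)
    · obtain ⟨δ, hδ, hδC⟩ := Metric.isOpen_iff.1 hCc.isOpen_compl v hvC
      set τ : ℝ := δ / 2 with hτ
      have hτ0 : 0 < τ := by positivity
      obtain ⟨N, hN⟩ := exists_nat_gt (1 / τ)
      have hfar : ∀ i, (A'' i ∩ ball v τ).Nonempty → i ∈ Iio N := by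
        rintro i ⟨y, hyA, hyv⟩
        obtain ⟨c, hcC, hyc⟩ := Metric.mem_thickening_iff.1 (hO3 i hyA.2)
        rw [mem_ball] at hyv
        have h5 : δ ≤ dist v c := by
          by_contra hlt
          rw [not_le] at hlt
          exact hδC (show c ∈ ball v δ by rw [mem_ball, dist_comm]; exact hlt) hcC
        have h6 : dist v c ≤ dist v y + dist y c := dist_triangle _ _ _
        rw [dist_comm v y] at h6
        have h8 : τ < 1 / ((i : ℝ) + 1) := by linarith
        have h10 : (i : ℝ) + 1 < 1 / τ := by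
          rw [lt_div_iff₀ (by positivity)] at h8 ⊢
          linarith
        have h11 : (i : ℝ) < N := by linarith
        exact mem_Iio.2 (by exact_mod_cast h11)
      have hvcl : v ∈ closure (V ∪ ⋃ i ∈ Iio N, A'' i) := by
        rw [_root_.mem_closure_iff]
        intro Q hQ hvQ
        obtain ⟨y, ⟨hyQ, hyv⟩, hy⟩ := _root_.mem_closure_iff.1 hvc (Q ∩ ball v τ)
          (hQ.inter isOpen_ball) ⟨hvQ, mem_ball_self hτ0⟩
        rcases hy with hy | hy
        · exact ⟨y, hyQ, Or.inl hy⟩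
        · obtain ⟨i, hi, hyi⟩ := mem_iUnion₂.1 hy
          exact ⟨y, hyQ, Or.inr (mem_iUnion₂.2 ⟨i, hfar i ⟨y, hyi, hyv⟩, hyi⟩)⟩
      rw [closure_union, (finite_Iio N).closure_biUnion] at hvcl
      rcases hvcl with h | h
      · have hvf : v ∈ frontier V := by
          rw [hV.frontier_eq]
          exact ⟨h, fun h' => hvn (Or.inl h')⟩
        exact hvC (hE ⟨hvf, hvE⟩)
      · obtain ⟨i, -, hi⟩ := mem_iUnion₂.1 h
        exact hkey i (hA'' i v hvE hi)

variable (T) in
/-- Every closed separable set has arbitrarily small open neighbourhoods whose boundaries are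
countable unions of subspaces with `ind ≤ 0`. -/
def SepSetS : Prop :=
  ∀ C : Set T, IsClosed C → TopologicalSpace.IsSeparable C → ∀ U : Set T, IsOpen U → C ⊆ U →
    ∃ V, IsOpen V ∧ C ⊆ V ∧ V ⊆ U ∧ SigmaZero (frontier V)

/-- **The main step** for closed separable sets. -/
theorem sigmaZero_closure_range_of_sepSetS (hT : SepSetS T) {I : Type v} [LinearOrder I]
    [WellFoundedLT I] (hI : ∀ i : I, (Iic i).Countable) (a : I → T) :
    SigmaZero (closure (range a)) := by
  have hpt : ∀ x : T, ∀ U : Set T, IsOpen U → x ∈ U →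
      ∃ V, IsOpen V ∧ x ∈ V ∧ V ⊆ U ∧ SigmaZero (frontier V) := by
    intro x U hU hxU
    obtain ⟨V, h1, h2, h3, h4⟩ := hT {x} isClosed_singleton
      (countable_singleton x).isSeparable U hU (singleton_subset_iff.2 hxU)
    exact ⟨V, h1, singleton_subset_iff.1 h2, h3, h4⟩
  obtain ⟨W, hWo, hWb, hWG, hbase⟩ := exists_base (T := T) sigmaZero_empty hpt
  have hcount : ∀ j : I, TopologicalSpace.IsSeparable (closure (a '' Iio j)) := fun j =>
    (((hI j).mono Iio_subset_Iic_self).image a).isSeparable.closure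
  -- the neighbourhoods of the closures of the initial segments
  have hO : ∀ (j : I) (k : ℕ), ∃ O : Set T, IsOpen O ∧ closure (a '' Iio j) ⊆ O ∧
      O ⊆ thickening (1 / ((k : ℝ) + 1)) (closure (a '' Iio j)) ∧ SigmaZero (frontier O) := by
    intro j k
    exact hT _ isClosed_closure (hcount j) _ isOpen_thickening
      (self_subset_thickening (by positivity) _)
  choose O hO1 hO2 hO3 hO4 using hO
  let P : ℕ → Set T := fun n => {x | ∃ i, x ∈ (⋃ m, W (a i) m n) ∧
    (∀ j < i, x ∉ ⋃ m, W (a j) m n) ∧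
      ∃ j ≤ i, ∃ m, x ∈ (⋃ k, frontier (W (a j) m k)) ∪ frontier (O j m)}
  have hP : ∀ n, SigmaZero (P n) := fun n =>
    sigmaZero_layers hI (fun i m => W (a i) m n) (fun i m => hWo _ _ _)
      (fun j m => (⋃ k, frontier (W (a j) m k)) ∪ frontier (O j m))
      fun j m => (SigmaZero.iUnion fun k => hWG _ _ _).union (hO4 j m)
  let E : Set T := closure (range a) \ ⋃ n, P n
  have hold : ∀ (j : I) (m : ℕ) (y : T),
      y ∈ (⋃ k, frontier (W (a j) m k)) ∪ frontier (O j m) → y ∈ E →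
      y ∈ closure (a '' Iio j) := by
    intro j m y hy hyE
    rw [Metric.mem_closure_iff]
    intro ε hε
    obtain ⟨n, hn⟩ := exists_nat_one_div_lt hε
    have hne : {i | y ∈ ⋃ m, W (a i) m n}.Nonempty := by
      obtain ⟨m', hm'⟩ := hbase y n
      obtain ⟨_, ⟨i, rfl⟩, hi⟩ := Metric.mem_closure_iff.1 hyE.1 (1 / ((m' : ℝ) + 1))
        (by positivity)
      exact ⟨i, mem_iUnion.2 ⟨m', hm' _ (by rw [dist_comm]; exact hi)⟩⟩
    set i := WellFounded.min (wellFounded_lt (α := I)) {i | y ∈ ⋃ m, W (a i) m n} hne with hi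
    have him : y ∈ ⋃ m, W (a i) m n := WellFounded.min_mem (wellFounded_lt (α := I)) _ hne
    have hlt : ∀ j < i, y ∉ ⋃ m, W (a j) m n := fun j hj hxj =>
      WellFounded.not_lt_min (wellFounded_lt (α := I)) {i | y ∈ ⋃ m, W (a i) m n} hxj hj
    have hij : i < j := by
      by_contra hle
      rw [not_lt] at hle
      exact hyE.2 (mem_iUnion.2 ⟨n, i, him, hlt, j, hle, m, hy⟩)
    obtain ⟨m', hm'⟩ := mem_iUnion.1 him
    refine ⟨a i, ⟨i, hij, rfl⟩, ?_⟩
    have h1 := hWb _ _ _ hm'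
    rw [mem_ball] at h1
    exact h1.trans hn
  have hOE : ∀ j k, frontier (O j k) ∩ E = ∅ := by
    intro j k
    rw [eq_empty_iff_forall_notMem]
    rintro y ⟨hy, hyE⟩
    have h1 := hO2 j k (hold j k y (Or.inr hy) hyE)
    rw [(hO1 j k).frontier_eq] at hy
    exact hy.2 h1
  have step : ∀ S : Set I, (∀ j ∈ S, ∀ z ∈ closure (a '' Iio j), Cln E z) →
      ∀ z ∈ closure (a '' S), Cln E z := by
    intro S hS z hz ε hε
    obtain ⟨n, hn⟩ := exists_nat_one_div_lt (show (0 : ℝ) < ε / 4 by positivity)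
    obtain ⟨m, hm⟩ := hbase z n
    obtain ⟨_, ⟨j, hj, rfl⟩, hzj⟩ := Metric.mem_closure_iff.1 hz (1 / ((m : ℝ) + 1))
      (by positivity)
    have hzW : z ∈ W (a j) m n := hm _ (by rw [dist_comm]; exact hzj)
    have hWz : W (a j) m n ⊆ ball z (ε / 2) := by
      intro y hy
      have h1 := hWb _ _ _ hy
      have h2 := hWb _ _ _ hzW
      rw [mem_ball] at h1 h2 ⊢
      calc dist y z ≤ dist y (a j) + dist z (a j) := by
            rw [dist_comm z (a j)]
            exact dist_triangle _ _ _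
        _ < 1 / ((n : ℝ) + 1) + 1 / ((n : ℝ) + 1) := add_lt_add h1 h2
        _ ≤ ε / 2 := by linarith
    obtain ⟨V', h1, h2, h3, h4⟩ := select_lindelof (E := E) (hWo (a j) m n) (hcount j)
      isClosed_closure (hS j hj)
      (fun y hy => hold j m y (Or.inl (mem_iUnion.2 ⟨n, hy.1⟩)) hy.2) (hO1 j) (hO2 j) (hO3 j)
      (hOE j) hWz (show (0 : ℝ) < ε / 2 by positivity)
    exact ⟨V', h1, h2 hzW, h3.trans (ball_subset_ball (by linarith)), h4⟩
  have hclean1 : ∀ j : I, ∀ z ∈ closure (a '' Iio j), Cln E z := by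
    intro j
    induction j using WellFoundedLT.induction with
    | ind j ih => exact step (Iio j) fun j' hj' => ih j' hj'
  have hclean : ∀ z ∈ closure (range a), Cln E z := by
    rw [← image_univ]
    exact step Set.univ fun j _ => hclean1 j
  have hE : IndZero E := by
    intro x hx U hU hxU
    obtain ⟨ε, hε, hεU⟩ := Metric.isOpen_iff.1 hU x hxU
    obtain ⟨V, h1, h2, h3, h4⟩ := hclean x hx.1 ε hε
    refine ⟨V, h1, h2, inter_subset_left.trans (h3.trans hεU), ?_⟩
    rintro y ⟨hy1, hy2⟩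
    by_contra hyV
    have h5 : y ∈ frontier V ∩ E := by
      refine ⟨?_, hy2⟩
      rw [h1.frontier_eq]
      exact ⟨closure_mono inter_subset_left hy1, hyV⟩
    rw [h4] at h5
    exact h5
  refine ((SigmaZero.of_indZero hE).union (SigmaZero.iUnion hP)).mono ?_
  intro x hx
  by_cases hxP : x ∈ ⋃ n, P n
  · exact Or.inr hxP
  · exact Or.inl ⟨hx, hxP⟩

/-- **Characterization**: a metric space locally of weight at most `aleph_1` is a countable union of
subspaces with `ind ≤ 0` if and only if every closed separable subset has arbitrarily small open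
neighbourhoods whose boundaries are such unions. -/
theorem sigmaZero_iff_sepSetS (hloc : LocAlephOne T) :
    SigmaZero (Set.univ : Set T) ↔ SepSetS T := by
  constructor
  · intro h C _ _ U hU hCU
    exact ⟨U, hU, hCU, subset_rfl, h.mono (subset_univ _)⟩
  · intro h
    refine sigmaZero_of_local fun x _ => ?_
    obtain ⟨O, hO, hxO, D, hD, hOD⟩ := hloc x
    obtain ⟨I, h1, h2, a, h3, h4⟩ := exists_enumeration hD
    refine ⟨O, hO, hxO, ?_⟩
    have h5 := sigmaZero_closure_range_of_sepSetS h h3 a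
    rw [h4] at h5
    exact h5.mono (inter_subset_left.trans hOD)

end Pool.Agent.OM55
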