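import Pool.Agent.OM55.Local

/-!
# Closed separable Menger sets, dense sets of size at most aleph one, subspaces and `trind`
-/

set_option autoImplicit false

namespace Pool.Agent.OM55

open Set Topology Metric Cardinal
open Pool.Agent.RM69

universe u v

section

variable {X : Type u} [TopologicalSpace X]

/-- All closed separable subsets are Menger. -/
def SepMenger (F : Set X) : Prop :=
  ∀ B : Set X, B ⊆ F → IsClosed B → TopologicalSpace.IsSeparable B → IsMenger B

theorem SepMenger.mono {F G : Set X} (h : SepMenger F) (hG : G ⊆ F) : SepMenger G :=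
  fun B hB hBc hBs => h B (hB.trans hG) hBc hBs

theorem sepMenger_empty : SepMenger (∅ : Set X) := by
  intro B hB _ _ 𝒰 _ _
  rw [subset_empty_iff.1 hB]
  exact ⟨fun _ => ∅, fun n => ⟨empty_subset _, finite_empty⟩, empty_subset _⟩

/-- A set in a subspace is Menger if it is Menger in the whole space. -/
theorem IsMenger.of_image_val {M : Set X} {B : Set M}
    (h : IsMenger (Subtype.val '' B : Set X)) : IsMenger B := by
  intro 𝒰 hU hcov
  obtain ⟨𝒱, h1, h2⟩ := h (fun n => {V | IsOpen V ∧ Subtype.val ⁻¹' V ∈ 𝒰 n})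
    (fun n V hV => hV.1) (by
      rintro n _ ⟨x, hx, rfl⟩
      obtain ⟨U, hUn, hxU⟩ := hcov n hx
      obtain ⟨V, hV, hVU⟩ := isOpen_induced_iff.1 (hU n U hUn)
      refine ⟨V, ⟨hV, by rw [hVU]; exact hUn⟩, ?_⟩
      rw [← hVU] at hxU
      exact hxU)
  refine ⟨fun n => (fun V => Subtype.val ⁻¹' V) '' 𝒱 n, fun n => ⟨?_, (h1 n).2.image _⟩, ?_⟩
  · rintro _ ⟨V, hV, rfl⟩
    exact ((h1 n).1 hV).2
  · intro x hx
    obtain ⟨n, V, hVn, hxV⟩ := mem_iUnion.1 (h2 ⟨x, hx, rfl⟩)
    exact mem_iUnion.2 ⟨n, _, ⟨V, hVn, rfl⟩, hxV⟩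

/-- Closed separable subsets of a closed subspace. -/
theorem SepMenger.preimage_val {F M : Set X} (hM : IsClosed M) (h : SepMenger F) :
    SepMenger (Subtype.val ⁻¹' F : Set M) := by
  intro B hB hBc hBs
  refine IsMenger.of_image_val (h _ ?_ ?_ ?_)
  · rintro _ ⟨x, hx, rfl⟩
    exact hB hx
  · exact hM.isClosedEmbedding_subtypeVal.isClosedMap _ hBc
  · exact hBs.image continuous_subtype_val

theorem SepMenger.univ_of_isClosed {F : Set X} (hF : IsClosed F) (h : SepMenger F) :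
    SepMenger (univ : Set F) := by
  have := h.preimage_val hF
  rwa [Subtype.coe_preimage_self] at this

end

section

variable {T : Type u} [MetricSpace T]

/-- Countably many members of a discrete family meet a separable set. -/
theorem countable_of_discrete {𝒟 : Set (Set T)} (hd : IsDiscreteFamily 𝒟) {B : Set T}
    (hB : TopologicalSpace.IsSeparable B) : {D ∈ 𝒟 | (D ∩ B).Nonempty}.Countable := by
  obtain ⟨Q, hQ, hBQ⟩ := hB
  have key : ∀ D : {D ∈ 𝒟 | (D ∩ B).Nonempty}, ∃ (x : T) (q : Q) (n : ℕ), x ∈ (D : Set T) ∧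
      dist x q < 1 / ((n : ℝ) + 1) ∧
      ∀ D' ∈ 𝒟, D' ≠ D → ∀ y ∈ D', 2 * (1 / ((n : ℝ) + 1)) ≤ dist x y := by
    rintro ⟨D, hD1, x, hxD, hxB⟩
    obtain ⟨O, hO, hxO, hsub⟩ := hd x
    obtain ⟨δ, hδ, hδO⟩ := Metric.isOpen_iff.1 hO x hxO
    obtain ⟨n, hn⟩ := exists_nat_one_div_lt (half_pos hδ)
    obtain ⟨q, hq, hxq⟩ := Metric.mem_closure_iff.1 (hBQ hxB) (1 / ((n : ℝ) + 1)) (by positivity)
    refine ⟨x, ⟨q, hq⟩, n, hxD, hxq, ?_⟩
    intro D' hD' hne y hy
    by_contra hlt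
    rw [not_le] at hlt
    have h1 : y ∈ O := hδO (by rw [mem_ball, dist_comm]; linarith)
    exact hne (hsub ⟨hD', y, hy, h1⟩ ⟨hD1, x, hxD, hxO⟩)
  choose x q n h1 h2 h3 using key
  have hQc : Countable Q := hQ
  have hinj : Function.Injective (fun D => (q D, n D)) := by
    intro D D' h
    simp only [Prod.mk.injEq] at h
    by_contra hne
    have h4 := h3 D D' D'.2.1 (fun h' => hne (Subtype.ext h'.symm)) (x D') (h1 D')
    have h5 := h2 D
    have h6 := h2 D'
    rw [← h.1, ← h.2] at h6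
    have h7 : dist (x D) (x D') ≤ dist (x D) (q D) + dist (x D') (q D) := by
      rw [dist_comm (x D') (q D)]
      exact dist_triangle _ _ _
    linarith
  exact (hinj.countable : Countable _)

/-- In a sigma-discretely Menger set all closed separable subsets are Menger. -/
theorem sepMenger_of_sdm {F : Set T} (h : SDM F) : SepMenger F := by
  obtain ⟨𝒟, hF, h𝒟⟩ := h
  intro B hBF hBc hBs
  have h1 : B = ⋃ k, ⋃ D ∈ {D ∈ 𝒟 k | (D ∩ B).Nonempty}, D ∩ B := by
    apply Subset.antisymm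
    · intro x hx
      have hxF := hBF hx
      rw [hF] at hxF
      obtain ⟨k, D, hD, hxD⟩ := mem_iUnion.1 hxF
      exact mem_iUnion.2 ⟨k, mem_iUnion₂.2 ⟨D, ⟨hD, x, hxD, hx⟩, hxD, hx⟩⟩
    · exact iUnion_subset fun k => iUnion₂_subset fun D _ => inter_subset_right
  rw [h1]
  refine IsMenger.iUnion fun k => ?_
  have hc : Countable {D ∈ 𝒟 k | (D ∩ B).Nonempty} := countable_of_discrete (h𝒟 k).1 hBs
  rw [biUnion_eq_iUnion]
  refine IsMenger.iUnion fun D => ?_
  obtain ⟨hDc, hDM⟩ := (h𝒟 k).2 D D.2.1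
  exact hDM.subset (hDc.inter hBc) inter_subset_left

/-- A subset of the closure of a set of cardinality at most `aleph_1` has a dense subset of
cardinality at most `aleph_1`. -/
theorem exists_dense_subtype {M D : Set T} (hD : #D ≤ ℵ₁) (hM : M ⊆ closure D) :
    ∃ D' : Set M, #D' ≤ ℵ₁ ∧ Dense D' := by
  classical
  let J := {p : D × ℕ // ∃ x ∈ M, dist x (p.1 : T) < 1 / ((p.2 : ℝ) + 1)}
  have key : ∀ p : J, ∃ x : M, dist (x : T) (p.1.1 : T) < 1 / ((p.1.2 : ℝ) + 1) := by
    rintro ⟨p, x, hx, hd⟩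
    exact ⟨⟨x, hx⟩, hd⟩
  choose f hf using key
  refine ⟨range f, ?_, ?_⟩
  · refine Cardinal.mk_range_le.trans ?_
    refine (Cardinal.mk_subtype_le _).trans ?_
    rw [Cardinal.mk_prod, Cardinal.mk_nat, Cardinal.lift_aleph0, Cardinal.lift_id']
    exact (mul_le_mul' hD (Cardinal.aleph0_le_aleph 1)).trans
      (Cardinal.mul_eq_self (Cardinal.aleph0_le_aleph 1)).le
  · intro x
    rw [Metric.mem_closure_iff]
    intro ε hε
    obtain ⟨n, hn⟩ := exists_nat_one_div_lt (half_pos hε)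
    obtain ⟨d, hd, hxd⟩ := Metric.mem_closure_iff.1 (hM x.2) (1 / ((n : ℝ) + 1)) (by positivity)
    let p : J := ⟨(⟨d, hd⟩, n), x, x.2, hxd⟩
    refine ⟨f p, mem_range_self p, ?_⟩
    have h1 : dist (f p : T) d < 1 / ((n : ℝ) + 1) := hf p
    have h2 : dist (x : T) (f p : T) ≤ dist (x : T) d + dist (f p : T) d := by
      rw [dist_comm (f p : T) d]
      exact dist_triangle _ _ _
    rw [Subtype.dist_eq]
    linarith

omit [MetricSpace T] in
/-- An enumeration along a well-order with countable initial segments. -/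
theorem exists_enumeration {D : Set T} (hD : #D ≤ ℵ₁) :
    ∃ (I : Type u) (_ : LinearOrder I) (_ : WellFoundedLT I) (a : I → T),
      (∀ i : I, (Iic i).Countable) ∧ range a = D := by
  have h1 : #((#D).ord.ToType) = #D := Cardinal.mk_ord_toType _
  obtain ⟨e⟩ := Cardinal.eq.1 h1
  refine ⟨(#D).ord.ToType, inferInstance, inferInstance, fun i => (e i : T), ?_, ?_⟩
  · intro i
    have h2 : #(Iio i) < #D := Cardinal.mk_Iio_toType_ord_lt i
    have h3 : #(Iio i) ≤ ℵ₀ := by
      have h4 : #(Iio i) < Order.succ ℵ₀ := by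
        rw [Cardinal.succ_aleph0]
        exact h2.trans_le hD
      exact Order.lt_succ_iff.1 h4
    have h4 : (Iio i).Countable := Cardinal.le_aleph0_iff_set_countable.1 h3
    have h5 : Iic i = insert i (Iio i) := by
      ext j
      simp only [mem_Iic, mem_insert_iff, mem_Iio]
      exact le_iff_eq_or_lt
    rw [h5]
    exact h4.insert i
  · ext x
    constructor
    · rintro ⟨i, rfl⟩
      exact (e i).2
    · intro hx
      exact ⟨e.symm ⟨x, hx⟩, by simp⟩

end

/-! ### small transfinite dimension -/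

section

variable {X : Type u} [TopologicalSpace X]

/-- `trind A ≤ α`, written out as in the frozen statement. -/
def TrindLe (A : Set X) (α : Ordinal.{v}) : Prop :=
  ∀ P : Set X → Ordinal.{v} → Prop,
    (∀ (A : Set X) (α' : Ordinal.{v}),
      (∀ x ∈ A, ∀ U : Set X, IsOpen U → x ∈ U →
        ∃ V : Set X, IsOpen V ∧ x ∈ V ∧ V ∩ A ⊆ U ∧
          ((closure (V ∩ A) ∩ A) \ V = ∅ ∨
            ∃ β < α', P ((closure (V ∩ A) ∩ A) \ V) β)) → P A α') →
    P A α

/-- `trind` of a subspace. -/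
theorem TrindLe.subtype {α : Ordinal.{v}} (h : TrindLe (univ : Set X) α) (M : Set X) :
    TrindLe (univ : Set M) α := by
  intro P' hP'
  have key := h (fun A α' => ∀ B : Set M, Subtype.val '' B ⊆ A → P' B α') (by
    intro A α' hA B hBA
    refine hP' B α' ?_
    intro x hx U hU hxU
    obtain ⟨U₀, hU₀, rfl⟩ := isOpen_induced_iff.1 hU
    obtain ⟨V, hV, hxV, h1, h2⟩ := hA x (hBA ⟨x, hx, rfl⟩) U₀ hU₀ hxU
    refine ⟨Subtype.val ⁻¹' V, hV.preimage continuous_subtype_val, hxV, ?_, ?_⟩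
    · rintro y ⟨hyV, hyB⟩
      exact h1 ⟨hyV, hBA ⟨y, hyB, rfl⟩⟩
    · have hsub : Subtype.val '' ((closure (Subtype.val ⁻¹' V ∩ B) ∩ B) \ Subtype.val ⁻¹' V) ⊆
          (closure (V ∩ A) ∩ A) \ V := by
        rintro _ ⟨y, ⟨⟨hy1, hy2⟩, hy3⟩, rfl⟩
        refine ⟨⟨?_, hBA ⟨y, hy2, rfl⟩⟩, hy3⟩
        rw [closure_subtype] at hy1
        refine closure_mono ?_ hy1
        rintro _ ⟨z, ⟨hz1, hz2⟩, rfl⟩
        exact ⟨hz1, hBA ⟨z, hz2, rfl⟩⟩
      rcases h2 with h2 | ⟨β, hβ, h2⟩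
      · left
        rw [h2, subset_empty_iff, image_eq_empty] at hsub
        exact hsub
      · exact Or.inr ⟨β, hβ, h2 _ hsub⟩)
  exact key univ (subset_univ _)

end

end Pool.Agent.OM55
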